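import Pool.Agent.helper76.UR.EX2

/-! # Project UR: the induction, for an arbitrary set of generators -/

namespace Pool.Agent.helper76.UR

open Finset Pool.Agent.helper34.DH Pool.Agent.helper76.FV Pool.Agent.helper76.LP

/-- two primes: the exceptional class removes the obstruction -/
def FixP (P : Multiset QZ → Prop) (D : ℕ) [NeZero D] : Prop :=
  ∃ e : ZMod D → ℤ, TateF (anti e) ∧ LP.cls D e ∈ EP P ∧
    ∀ f g : (ZMod D)ˣ → ℤ, (∀ x, f (-x) = - f x) →
      (∀ L : List ℕ, L.Nodup → L.toFinset = D.primeFactors → MDv (Gam D) L f) →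
      (g = fun z => f z - anti e (z : ZMod D)) →
      (∀ x, g (-x) = - g x) →
      (∀ L : List ℕ, L.Nodup → L.toFinset = D.primeFactors → MDv (Gam D) L g) →
      NDec D f ∨ NDec D g

lemma fixP_of_exo {P : Multiset QZ → Prop} (D p q : ℕ) [NeZero D] (hpq : p ≠ q)
    (hD : D.primeFactors = {p, q})
    (hc : D.totient = Nat.card (Gam D p) * Nat.card (Gam D q)) (ν : (ZMod D)ˣ)
    (h1 : ν ∈ Gam D p) (h2 : -ν ∈ Gam D q) (hν : ν * ν = 1) (hE : ExoP P D (ν : ZMod D)) :
    FixP P D := by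
  obtain ⟨e, he1, he2, he3⟩ := hE
  refine ⟨e, he1, he3, ?_⟩
  intro f g hf hfL hg hgodd hgL
  have hL : [p, q].toFinset = D.primeFactors := by rw [hD]; simp
  have hn : [p, q].Nodup := by simp [hpq]
  rcases Int.even_or_odd (f 1 + f ν) with h | h
  · left
    exact ndec_two D p q hpq hD hc ν h1 h2 hν f hf (hfL _ hn hL) h
  · right
    refine ndec_two D p q hpq hD hc ν h1 h2 hν g hgodd (hgL _ hn hL) ?_
    rw [hg]
    have : f 1 - anti e ((1 : (ZMod D)ˣ) : ZMod D) + (f ν - anti e (ν : ZMod D)) =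
        (f 1 + f ν) - (anti e 1 + anti e (ν : ZMod D)) := by
      rw [Units.val_one]; ring
    simp only
    rw [this]
    exact h.sub_odd he2

/-- the result of one stage -/
def OutP (P : Multiset QZ → Prop) (m : ℕ) [NeZero m] (D : ℕ) (c : ZMod m → ℤ) : Prop :=
  ∃ c' : ZMod m → ℤ, TateF (anti c') ∧ (∀ x, anti c' x ≠ 0 → addOrderOf x < D) ∧
    LP.cls m c - LP.cls m c' ∈ EP P

lemma outP_of_ndec {P : Multiset QZ → Prop} (m : ℕ) [NeZero m] (D : ℕ) [NeZero D]
    (hD : D ∣ m) (c : ZMod m → ℤ)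
    (hmax : ∀ x, anti c x ≠ 0 → addOrderOf x ≤ D) (hT : TateF (anti c))
    (hdec : NDec D (fun z => anti c (LP.emb D m (z : ZMod D)))) : OutP P m D c := by
  obtain ⟨c', h1, h2, j, hj⟩ := step0 m D hD c hmax hT hdec
  refine ⟨c', h1, h2, ?_⟩
  rw [hj]
  have : LP.cls m c - (LP.cls m c + j • Pool.Agent.helper34.DH.hh) =
      -(j • Pool.Agent.helper34.DH.hh) := by abel
  rw [this]
  exact (EP P).neg_mem ((EP P).zsmul_mem hh_mem' j)

lemma outP_of_fix {P : Multiset QZ → Prop} (m : ℕ) [NeZero m] (D : ℕ) [NeZero D]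
    (hD : D ∣ m) (c : ZMod m → ℤ)
    (hmax : ∀ x, anti c x ≠ 0 → addOrderOf x ≤ D) (hT : TateF (anti c)) (hF : FixP P D) :
    OutP P m D c := by
  obtain ⟨e, he1, he2, he3⟩ := hF
  set c2 : ZMod m → ℤ := fun x => c x - push D m e x with hc2
  have ha : ∀ x, anti c2 x = anti c x - push D m (anti e) x := by
    intro x
    rw [hc2, anti_sub, anti_push D m hD]
  have hT2 : TateF (anti c2) := by
    intro t
    have h1 := hT t
    have h2 := tateF_push D m hD (anti e) he1 t
    simp_rw [ha, sub_mul]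
    rw [Finset.sum_sub_distrib, h1, h2, sub_zero]
  have hD0 : 0 < D := Nat.pos_of_ne_zero (NeZero.ne D)
  have hmax2 : ∀ x, anti c2 x ≠ 0 → addOrderOf x ≤ D := by
    intro x hx
    by_cases h1 : push D m (anti e) x = 0
    · apply hmax
      rw [ha, h1, sub_zero] at hx
      exact hx
    · exact Nat.le_of_dvd hD0 (push_order D m hD _ x h1)
  have hodd : ∀ c : ZMod m → ℤ, ∀ x : (ZMod D)ˣ, anti c (LP.emb D m ((-x : (ZMod D)ˣ) : ZMod D)) =
      - anti c (LP.emb D m (x : ZMod D)) := by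
    intro c x
    rw [Units.val_neg, emb_neg hD, anti_odd]
  have h := he3 (fun z => anti c (LP.emb D m (z : ZMod D)))
    (fun z => anti c2 (LP.emb D m (z : ZMod D))) (hodd c)
    (fun L _ hL => mdiff_anti m D hD c hT hmax L hL)
    (by funext z; rw [ha, push_emb D m hD]) (hodd c2)
    (fun L _ hL => mdiff_anti m D hD c2 hT2 hmax2 L hL)
  rcases h with h | h
  · exact outP_of_ndec m D hD c hmax hT h
  · obtain ⟨c', h1, h2, h3⟩ := outP_of_ndec m D hD c2 hmax2 hT2 h
    refine ⟨c', h1, h2, ?_⟩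
    have h4 : LP.cls m c2 = LP.cls m c - LP.cls D e := by
      rw [hc2, cls_sub, cls_push D m hD]
    have h5 : LP.cls m c - LP.cls m c' = (LP.cls m c2 - LP.cls m c') + LP.cls D e := by
      rw [h4]; abel
    rw [h5]
    exact (EP P).add_mem h3 he2

/-- the levels in which the obstruction classes can be removed -/
def GoodFor (P : Multiset QZ → Prop) (m : ℕ) : Prop :=
  ∀ (D : ℕ) [NeZero D], D ∣ m → D % 4 ≠ 2 →
    ((∀ p, p.Prime → Odd p → ¬ p ^ 2 ∣ D) ∧ ¬ 8 ∣ D) →
    D.primeFactors.card ≤ 1 ∨ D.primeFactors.card = 3 ∨ FixP P D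

/-- one stage of the induction -/
theorem stageP {P : Multiset QZ → Prop} (m : ℕ) [NeZero m] (hm : GoodFor P m) (D : ℕ) [NeZero D]
    (hD : D ∣ m) (c : ZMod m → ℤ) (hmax : ∀ x, anti c x ≠ 0 → addOrderOf x ≤ D)
    (hT : TateF (anti c)) : OutP P m D c := by
  have hodd : ∀ x : (ZMod D)ˣ, anti c (LP.emb D m ((-x : (ZMod D)ˣ) : ZMod D)) =
      - anti c (LP.emb D m (x : ZMod D)) := by
    intro x
    rw [Units.val_neg, emb_neg hD, anti_odd]
  by_cases hD4 : D % 4 = 2
  · exact outP_of_ndec m D hD c hmax hT (ndec_of_dec D _ (dec_two D hD4 _ hodd))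
  have hmd : ∀ L : List ℕ, L.Nodup → L.toFinset = D.primeFactors →
      MDv (Gam D) L (fun z => anti c (LP.emb D m (z : ZMod D))) :=
    fun L _ hL => mdiff_anti m D hD c hT hmax L hL
  set L := D.primeFactors.toList with hLdef
  have hLn : L.Nodup := Finset.nodup_toList _
  have hLt : L.toFinset = D.primeFactors := Finset.toList_toFinset _
  by_cases h1 : (-1 : (ZMod D)ˣ) ∈ Pl (Gam D) L
  · have hs := sqf_of_neg_one D L hLt h1
    rcases hm D hD hD4 hs with h2 | h2 | h2
    · exact outP_of_ndec m D hD c hmax hT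
        (ndec_one D h2 L hLn hLt h1 _ hodd (hmd L hLn hLt))
    · exact outP_of_ndec m D hD c hmax hT (ndec_three D hD4 h2 hs _ hodd hmd)
    · exact outP_of_fix m D hD c hmax hT h2
  · exact outP_of_ndec m D hD c hmax hT (ndec_half D L hLn hLt h1 _ hodd (hmd L hLn hLt))

/-- the main induction -/
theorem main_inductionP {P : Multiset QZ → Prop} (m : ℕ) [NeZero m] (hm : GoodFor P m) :
    ∀ (D : ℕ) (c : ZMod m → ℤ), TateF (anti c) → (∀ x, anti c x ≠ 0 → addOrderOf x ≤ D) →
      LP.cls m c ∈ EP P := by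
  intro D
  induction D with
  | zero =>
    intro c _ h
    obtain ⟨j, hj⟩ := cls_even m c (by
      intro x
      by_contra hx
      have := h x hx
      have h2 := addOrderOf_pos x
      omega)
    rw [hj]
    exact (EP P).zsmul_mem hh_mem' j
  | succ D ih =>
    intro c hT h
    by_cases hD : (D + 1) ∣ m
    · have : NeZero (D + 1) := ⟨Nat.succ_ne_zero D⟩
      obtain ⟨c', h1, h2, h3⟩ := stageP m hm (D + 1) hD c h hT
      have h4 := ih c' h1 (fun x hx => Nat.lt_succ_iff.1 (h2 x hx))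
      have h5 := (EP P).add_mem h3 h4
      rwa [sub_add_cancel] at h5
    · apply ih c hT
      intro x hx
      have h1 := h x hx
      have h2 : addOrderOf x ≠ D + 1 := fun h3 => hD (h3 ▸ addOrderOf_dvd' x)
      omega

/-- the theorem for an arbitrary set of generators -/
theorem tate_gen {P : Multiset QZ → Prop} (hP : TateGen P) (m : ℕ) (hm : 0 < m)
    (hg : GoodFor P m) (k : ℕ) (a : Fin (2 * k) → ZMod m) :
    TateM m a ↔ (∀ i, a i ≠ 0) ∧ EquivMod P (pts a) 0 := by
  have : NeZero m := ⟨hm.ne'⟩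
  constructor
  · intro hT
    refine ⟨hT.1, equivMod_of_cls hP m k a hT.1 ?_⟩
    exact main_inductionP m hg m _ (tateF_anti m a hT)
      (fun x _ => Nat.le_of_dvd hm (addOrderOf_dvd' x))
  · rintro ⟨h0, hs⟩
    exact tateM_of_equivMod hP m hm _ a h0 hs

end Pool.Agent.helper76.UR
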