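import Pool.Agent.helper76.UR.Defs

/-! # Project UR: algebra of `EquivMod` -/

namespace Pool.Agent.helper76.UR

open Finset Pool.Agent.helper34.DH Pool.Agent.helper76.FV Pool.Agent.helper76.LP

variable {P : Multiset QZ → Prop}

theorem CV_gen_mem {s : Multiset QZ} (hs : IsStd s ∨ P s) : helper34.DH.emb s ∈ RP P :=
  AddSubgroup.subset_closure ⟨s, hs, rfl⟩

theorem CV_mem_R2 {r : QZ →₀ ℤ} (h : r ∈ RP P) : ∃ S T : Multiset (Multiset QZ),
    (∀ u ∈ S, IsStd u ∨ P u) ∧ (∀ u ∈ T, IsStd u ∨ P u) ∧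
    r = helper34.DH.emb S.sum - helper34.DH.emb T.sum := by
  refine AddSubgroup.closure_induction (p := fun r _ => ∃ S T : Multiset (Multiset QZ),
    (∀ u ∈ S, IsStd u ∨ P u) ∧ (∀ u ∈ T, IsStd u ∨ P u) ∧
    r = helper34.DH.emb S.sum - helper34.DH.emb T.sum) ?_ ?_ ?_ ?_ h
  · rintro _ ⟨s, hs, rfl⟩
    exact ⟨{s}, 0, by simpa using hs, by simp, by simp [helper34.DH.emb_zero]⟩
  · exact ⟨0, 0, by simp, by simp, by simp⟩
  · rintro r r' _ _ ⟨S, T, h1, h2, rfl⟩ ⟨S', T', h3, h4, rfl⟩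
    refine ⟨S + S', T + T', ?_, ?_, ?_⟩
    · intro u hu
      rcases Multiset.mem_add.1 hu with h | h
      · exact h1 u h
      · exact h3 u h
    · intro u hu
      rcases Multiset.mem_add.1 hu with h | h
      · exact h2 u h
      · exact h4 u h
    · rw [Multiset.sum_add, Multiset.sum_add, _root_.map_add, _root_.map_add]
      abel
  · rintro r _ ⟨S, T, h1, h2, rfl⟩
    exact ⟨T, S, h2, h1, by abel⟩

theorem equivMod_iff (s t : Multiset QZ) :
    EquivMod P s t ↔ helper34.DH.emb s - helper34.DH.emb t ∈ RP P := by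
  constructor
  · rintro ⟨S, T, hS, hT, h⟩
    have h1 : ∀ S : Multiset (Multiset QZ), (∀ u ∈ S, IsStd u ∨ P u) →
        helper34.DH.emb S.sum ∈ RP P := by
      intro S
      induction S using Multiset.induction_on with
      | empty => intro _; simp
      | cons a S ih =>
        intro h
        rw [Multiset.sum_cons, _root_.map_add]
        exact (RP P).add_mem (CV_gen_mem (h a (by simp))) (ih fun u hu => h u (by simp [hu]))
    have h2 := congrArg helper34.DH.emb h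
    rw [_root_.map_add, _root_.map_add] at h2
    have h3 : helper34.DH.emb s - helper34.DH.emb t =
        helper34.DH.emb T.sum - helper34.DH.emb S.sum := by
      rw [sub_eq_sub_iff_add_eq_add, h2, add_comm]
    rw [h3]
    exact (RP P).sub_mem (h1 T hT) (h1 S hS)
  · intro h
    obtain ⟨S, T, hS, hT, h1⟩ := CV_mem_R2 h
    refine ⟨T, S, hT, hS, ?_⟩
    apply helper34.DH.emb_injective
    rw [_root_.map_add, _root_.map_add, ← sub_eq_zero]
    have : helper34.DH.emb s + helper34.DH.emb T.sum -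
        (helper34.DH.emb t + helper34.DH.emb S.sum) =
        (helper34.DH.emb s - helper34.DH.emb t) -
          (helper34.DH.emb S.sum - helper34.DH.emb T.sum) := by
      abel
    rw [this, h1, sub_self]

theorem CV_R_le {r : QZ →₀ ℤ} (h : r ∈ R) : r ∈ RP P := by
  refine (AddSubgroup.closure_le (K := RP P)).2 ?_ h
  rintro _ ⟨s, hs, rfl⟩
  exact CV_gen_mem (Or.inl hs)

theorem CV_mem_EP (hP : TateGen P) {q : Qt} (h : q ∈ EP P) : ∃ r : QZ →₀ ℤ, r ∈ RP P ∧ (2 : ℤ) ∣ deg r ∧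
    ∃ j : ℤ, q = mk r + j • hh := by
  refine AddSubgroup.closure_induction (p := fun q _ => ∃ r : QZ →₀ ℤ, r ∈ RP P ∧
    (2 : ℤ) ∣ deg r ∧ ∃ j : ℤ, q = mk r + j • hh) ?_ ?_ ?_ ?_ h
  · rintro q (⟨u, hu, rfl⟩ | rfl)
    · refine ⟨helper34.DH.emb u, CV_gen_mem (Or.inr hu), ?_, 0, by simp⟩
      rw [deg_emb]
      obtain ⟨N, k, z, hN, hz, rfl⟩ := hP u hu
      have hcard : Multiset.card (pts z) = 2 * k + 2 := by
        unfold pts; rw [Multiset.card_map]; simp
      rw [hcard]; exact ⟨k + 1, by push_cast; ring⟩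
    · exact ⟨0, (RP P).zero_mem, by simp, 1, by simp⟩
  · exact ⟨0, (RP P).zero_mem, by simp, 0, by simp⟩
  · rintro q q' _ _ ⟨r, h1, h2, j, rfl⟩ ⟨r', h1', h2', j', rfl⟩
    refine ⟨r + r', (RP P).add_mem h1 h1', ?_, j + j', ?_⟩
    · rw [_root_.map_add]; exact dvd_add h2 h2'
    · rw [_root_.map_add, add_smul]; abel
  · rintro q _ ⟨r, h1, h2, j, rfl⟩
    refine ⟨-r, (RP P).neg_mem h1, ?_, -j, ?_⟩
    · rw [_root_.map_neg]; exact (dvd_neg).2 h2
    · rw [_root_.map_neg, neg_smul]; abel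

theorem equivMod_of_cls (hP : TateGen P) (m : ℕ) [NeZero m] (d : ℕ) (a : Fin (2 * d) → ZMod m)
    (h0 : ∀ i, a i ≠ 0) (h : cls m (cnt a) ∈ EP P) : EquivMod P (pts a) 0 := by
  have hm : 0 < m := Nat.pos_of_ne_zero (NeZero.ne m)
  obtain ⟨r, hr, hdr, j, hj⟩ := CV_mem_EP hP h
  have h1 : cls m (cnt a) = ∑ i, F (frac m a i) := sum_cnt_smul a (cl m)
  have h2 := mk_ptsQ (frac m a) (pts_ne_zero hm a h0)
  rw [← h1, hj] at h2
  rw [equivMod_iff, _root_.map_zero, sub_zero]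
  have hcard : Multiset.card (pts a) = 2 * d := by
    unfold pts; rw [Multiset.card_map]; simp
  have h3 : helper34.DH.emb (pts a) - r - j • Finsupp.single half 1 ∈ R := by
    rw [← mk_eq_zero, _root_.map_sub, _root_.map_sub, _root_.map_zsmul]
    change mk (helper34.DH.emb (ptsQ (frac m a))) - mk r - j • mk (Finsupp.single half 1) = 0
    rw [h2, ← rho_of_ne half_ne_zero, rho_half]
    abel
  have h4 := deg_R h3
  rw [_root_.map_sub, _root_.map_sub, _root_.map_zsmul, deg_single, deg_emb, hcard] at h4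
  have hj2 : Even j := by
    rw [smul_eq_mul, mul_one] at h4
    push_cast at h4
    rw [even_iff_two_dvd]
    omega
  have h5 : helper34.DH.emb (pts a) - r ∈ R := by
    rw [← mk_eq_zero, _root_.map_sub]
    change mk (helper34.DH.emb (ptsQ (frac m a))) - mk r = 0
    rw [h2, zsmul_hh, if_neg (Int.not_odd_iff_even.2 hj2)]
    abel
  have h6 := (RP P).add_mem (CV_R_le h5) hr
  rwa [sub_add_cancel] at h6

/-- weights vanish on `RP P` -/
theorem CV_wt_RP (hP : TateGen P) (r : QZ →₀ ℤ) (hr : r ∈ RP P) :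
    ∃ M : ℕ, 0 < M ∧ ∀ t : ℤ, IsCoprime t (M : ℤ) → wt t r = 0 := by
  refine AddSubgroup.closure_induction (p := fun r _ => ∃ M : ℕ, 0 < M ∧
    ∀ t : ℤ, IsCoprime t (M : ℤ) → wt t r = 0) ?_ ?_ ?_ ?_ hr
  · rintro _ ⟨s, hs | hs, rfl⟩
    · exact wt_R _ (std_mem hs)
    · obtain ⟨N, k, z, hN, hz, rfl⟩ := hP s hs
      rw [isTateFermat_iff N hN, tateM_iff N hN] at hz
      refine ⟨∏ i, (frac N z i).den, Finset.prod_pos fun i _ => (frac N z i).den_pos,
        fun t ht => ?_⟩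
      change wt t (helper34.DH.emb (ptsQ (frac N z))) = 0
      rw [wt_ptsQ, hz.2 t, sub_self]
      intro i
      refine ht.of_isCoprime_of_dvd_right (Int.natCast_dvd_natCast.2 ?_)
      exact Finset.dvd_prod_of_mem (fun i => (frac N z i).den) (mem_univ i)
  · exact ⟨1, one_pos, fun t _ => by simp⟩
  · rintro r r' _ _ ⟨M, hM, h⟩ ⟨M', hM', h'⟩
    refine ⟨M * M', Nat.mul_pos hM hM', fun t ht => ?_⟩
    push_cast at ht
    rw [_root_.map_add, h t ht.of_mul_right_left, h' t ht.of_mul_right_right, add_zero]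
  · rintro r _ ⟨M, hM, h⟩
    exact ⟨M, hM, fun t ht => by rw [_root_.map_neg, h t ht, neg_zero]⟩

theorem CV_tate_transfer (hP : TateGen P) {l : ℕ} (z : Fin l → ℚ)
    (hz : ∀ i, Int.fract (z i) ≠ 0) (h : helper34.DH.emb (ptsQ z) ∈ RP P) :
    Tate z := by
  refine ⟨hz, fun t ht => ?_⟩
  obtain ⟨M, hM, hMt⟩ := CV_wt_RP hP _ h
  set Q : ℕ := ∏ i, (z i).den with hQ
  have hQ0 : 0 < Q := Finset.prod_pos fun i _ => (z i).den_pos
  have hcop : IsCoprime t (Q : ℤ) := by
    have : (Q : ℤ) = ∏ i, ((z i).den : ℤ) := by simp [Q]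
    rw [this]
    exact IsCoprime.prod_right fun i _ => ht i
  obtain ⟨t', ht', hdiv⟩ := exists_lift Q M hQ0 hM t hcop
  have h1 : ∀ i, Int.fract ((t : ℚ) * z i) = Int.fract ((t' : ℚ) * z i) := by
    intro i
    apply FA_fract_congr
    have h2 : ((z i).den : ℤ) ∣ t' - t := (Int.natCast_dvd_natCast.2
      (Finset.dvd_prod_of_mem (fun i => (z i).den) (mem_univ i))).trans hdiv
    obtain ⟨n, hn⟩ := FA_int_of_dvd (z i) (t' - t) h2
    refine ⟨-n, ?_⟩
    push_cast at hn ⊢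
    linarith
  have h3 := hMt t' ht'
  rw [wt_ptsQ] at h3
  rw [Finset.sum_congr rfl fun i _ => h1 i]
  linarith

theorem tateM_of_equivMod (hP : TateGen P) (m : ℕ) (hm : 0 < m) (k : ℕ) (a : Fin k → ZMod m)
    (h0 : ∀ i, a i ≠ 0) (h : EquivMod P (pts a) 0) : TateM m a := by
  rw [tateM_iff m hm]
  rw [equivMod_iff, _root_.map_zero, sub_zero] at h
  exact CV_tate_transfer hP _ (fun i => (FZ_ne m hm a i).2 (h0 i)) h

end Pool.Agent.helper76.UR
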