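import Pool.Agent.helper76.LP.Main2

/-! # Project UR: ruled classes, definitions -/

namespace Pool.Agent.helper76.UR

open Finset Pool.Agent.helper34.DH Pool.Agent.helper76.FV Pool.Agent.helper76.LP

/-- `B` is ruled: for some multiset `C` of elements of `B`, the sum of `C` contains more than
`card C` disjoint nonempty multisets with sum zero -/
def Ruled (B : Multiset (Multiset QZ)) : Prop :=
  ∃ C L : Multiset (Multiset QZ), (∀ b ∈ C, b ∈ B) ∧ (∀ s ∈ L, s ≠ 0 ∧ s.sum = 0) ∧
    L.sum ≤ C.sum ∧ Multiset.card C < Multiset.card L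

/-- pieces: multisets with sum zero with three entries, or made of blocks with sum zero with
`5`, or `4` and `3`, or `3`, `3` and `3` entries forming a ruled `B` -/
def IsPiece (v : Multiset QZ) : Prop :=
  (v.sum = 0 ∧ Multiset.card v = 3) ∨
  ∃ B : Multiset (Multiset QZ), Ruled B ∧ (∀ b ∈ B, b.sum = 0 ∧ 3 ≤ Multiset.card b) ∧
    Multiset.card v = 2 * Multiset.card B + 3 ∧ v = B.sum

/-- Lefschetz classes: the multisets `pts z`, `z` a Tate character of a Fermat surface, or a Tate
character of a Fermat variety made of two pieces -/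
def IsLef (u : Multiset QZ) : Prop :=
  ∃ (N r : ℕ) (z : Fin (2 * r + 2) → ZMod N), 0 < N ∧ IsTateFermat N r z ∧ u = pts z ∧
    (r = 1 ∨ ∃ v w, IsPiece v ∧ IsPiece w ∧ u = v + w)

/-- equality of multisets up to standard elements and the elements of `P` -/
def EquivMod (P : Multiset QZ → Prop) (s t : Multiset QZ) : Prop :=
  ∃ S T : Multiset (Multiset QZ), (∀ u ∈ S, IsStd u ∨ P u) ∧ (∀ u ∈ T, IsStd u ∨ P u) ∧
    s + S.sum = t + T.sum

/-- equality of multisets up to standard elements and Lefschetz classes -/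
def LefEquiv (s t : Multiset QZ) : Prop := EquivMod IsLef s t

/-- the elements of `P` are Tate characters -/
def TateGen (P : Multiset QZ → Prop) : Prop :=
  ∀ u, P u → ∃ (N r : ℕ) (z : Fin (2 * r + 2) → ZMod N), 0 < N ∧ IsTateFermat N r z ∧ u = pts z

/-- the subgroup generated by standard elements and `P` -/
noncomputable def RP (P : Multiset QZ → Prop) : AddSubgroup (QZ →₀ ℤ) :=
  AddSubgroup.closure {r | ∃ s, (IsStd s ∨ P s) ∧ r = helper34.DH.emb s}

/-- the subgroup of `Qt` generated by `P` and the class of `1/2` -/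
noncomputable def EP (P : Multiset QZ → Prop) : AddSubgroup Qt :=
  AddSubgroup.closure {q | (∃ u, P u ∧ q = mk (helper34.DH.emb u)) ∨ q = hh}

/-- an exceptional class of level `D`, odd at the unit `ν` -/
def ExoP (P : Multiset QZ → Prop) (D : ℕ) [NeZero D] (ν : ZMod D) : Prop :=
  ∃ e : ZMod D → ℤ, TateF (anti e) ∧ Odd (anti e 1 + anti e ν) ∧ cls D e ∈ EP P

/-- surface classes are Lefschetz classes -/
theorem lef_of_surf {u : Multiset QZ} (h : IsSurf u) : IsLef u := by
  obtain ⟨N, z, h1, h2, h3⟩ := h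
  exact ⟨N, 1, z, h1, h2, h3, Or.inl rfl⟩

theorem tateGen_lef : TateGen IsLef := by
  rintro u ⟨N, r, z, h1, h2, h3, -⟩
  exact ⟨N, r, z, h1, h2, h3⟩

end Pool.Agent.helper76.UR
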