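import Pool.Agent.helper76.UR.RU

/-! # Project UR: exceptional classes from ruled multisets -/

namespace Pool.Agent.helper76.UR

open Finset Pool.Agent.helper34.DH Pool.Agent.helper76.FV Pool.Agent.helper76.LP

theorem EX_tateM (N k : ℕ) [NeZero N] (z : Fin k → ZMod N) (h0 : ∀ i, z i ≠ 0)
    (h : ∀ t : ZMod N, Nat.Coprime t.val N → 2 * ∑ i, (t * z i).val = k * N) :
    TateM N z :=
  ⟨h0, fun t => h t (ZMod.val_coe_unit_coprime t)⟩

theorem EX_cls (N r : ℕ) [NeZero N] (z : Fin (2 * r + 2) → ZMod N) (hT : TateM N z)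
    (hz : r = 1 ∨ ∃ v w, IsPiece v ∧ IsPiece w ∧ pts z = v + w) :
    cls N (cnt z) ∈ EP IsLef := by
  have hN : 0 < N := Nat.pos_of_ne_zero (NeZero.ne N)
  have h1 : cls N (cnt z) = ∑ i, F (frac N z i) := sum_cnt_smul z (cl N)
  have h2 := mk_ptsQ (frac N z) (pts_ne_zero hN z hT.1)
  rw [h1, ← h2]
  exact AddSubgroup.subset_closure
    (Or.inl ⟨pts z, ⟨N, r, z, hN, (isTateFermat_iff N hN r z).2 hT, rfl, hz⟩, rfl⟩)

/-- pieces with three entries -/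
theorem piece3 {m : ℕ} [NeZero m] (a : Fin 3 → ZMod m) (h : ∑ i, a i = 0) : IsPiece (pts a) :=
  Or.inl ⟨sum_pts a h, card_pts a⟩

/-- certificate check for ruled pieces -/
def chk (m k s : ℕ) (a : Fin k → ZMod m) (β : Fin k → Fin s) (N : Fin s → ℕ)
    (rows : List ((Fin k → ℕ) × ℕ)) : Bool :=
  decide (k = 2 * s + 3) &&
  decide (∀ j, ∑ i ∈ univ.filter (fun i => β i = j), a i = 0) &&
  decide (∀ j, 3 ≤ (univ.filter (fun i => β i = j)).card) &&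
  rows.all (fun r => decide (∃ i, r.1 i ≠ 0) && decide (∑ i, ((r.1 i : ℕ) : ZMod m) * a i = 0)) &&
  decide (∀ i, (rows.map (fun r => r.2 * r.1 i)).sum ≤ N (β i)) &&
  decide (∑ j, N j < (rows.map (fun r => r.2)).sum)

theorem piece_of_chk {m k s : ℕ} [NeZero m] (a : Fin k → ZMod m) (β : Fin k → Fin s)
    (N : Fin s → ℕ) (rows : List ((Fin k → ℕ) × ℕ)) (h : chk m k s a β N rows = true) :
    IsPiece (pts a) := by
  unfold chk at h
  simp only [Bool.and_eq_true, decide_eq_true_eq, List.all_eq_true] at h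
  obtain ⟨⟨⟨⟨⟨hk, h0⟩, hc⟩, h1⟩, h2⟩, h3⟩ := h
  refine Or.inr ⟨blks a β, ruled_of_cert a β N rows (fun r hr => h1 r hr) h2 h3, ?_, ?_, ?_⟩
  · intro b hb
    obtain ⟨j, rfl⟩ := mem_blks a β b hb
    exact ⟨sum_blk a β j (h0 j), by rw [card_blk]; exact hc j⟩
  · rw [card_pts, card_blks]; exact hk
  · exact (blks_sum a β).symm

theorem exo_lef_of_exo {D : ℕ} [NeZero D] {ν : ZMod D} (h : Exo D ν) : ExoP IsLef D ν := by
  obtain ⟨e, h1, h2, h3⟩ := h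
  refine ⟨e, h1, h2, ?_⟩
  refine (AddSubgroup.closure_le (K := EP IsLef)).2 ?_ h3
  rintro q (⟨u, hu, rfl⟩ | rfl)
  · exact AddSubgroup.subset_closure (Or.inl ⟨u, lef_of_surf hu, rfl⟩)
  · exact AddSubgroup.subset_closure (Or.inr rfl)

/-- exceptional class of level `N` made of two pieces -/
theorem EX_exo (N r : ℕ) [NeZero N] (ν : ZMod N) (z : Fin (2 * r + 2) → ZMod N)
    (h0 : ∀ i, z i ≠ 0)
    (h : ∀ t : ZMod N, Nat.Coprime t.val N → 2 * ∑ i, (t * z i).val = (2 * r + 2) * N)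
    (hz : ∃ v w, IsPiece v ∧ IsPiece w ∧ pts z = v + w)
    (hodd : Odd (anti (cnt z) 1 + anti (cnt z) ν)) : ExoP IsLef N ν :=
  have hT := EX_tateM N _ z h0 h
  ⟨cnt z, tateF_anti N z hT, hodd, EX_cls N r z hT (Or.inr hz)⟩

def a35 : Fin 5 → ZMod 35 := ![1, 2, 8, 28, 31]
def b35 : Fin 5 → ZMod 35 := ![33, 30, 23, 16, 3]

def z35 : Fin (2 * 4 + 2) → ZMod 35 := (Fin.append a35 b35 : Fin (5 + 5) → ZMod 35)

theorem exo35 : ExoP IsLef 35 29 := by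
  have ha : IsPiece (pts a35) := piece_of_chk (s := 1) a35 (fun _ => 0) (fun _ => 5)
    [(![4, 0, 0, 0, 1], 1), (![0, 2, 0, 0, 1], 2), (![1, 1, 4, 0, 0], 1), (![0, 0, 0, 5, 0], 1),
      (![0, 0, 1, 0, 2], 1)] (by decide +kernel)
  have hb : IsPiece (pts b35) := piece_of_chk (s := 1) b35 (fun _ => 0) (fun _ => 7)
    [(![2, 0, 1, 1, 0], 1), (![0, 7, 0, 0, 0], 1), (![1, 0, 3, 0, 1], 2), (![0, 0, 0, 2, 1], 3),
      (![3, 0, 0, 0, 2], 1)] (by decide +kernel)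
  exact EX_exo 35 4 29 z35 (by decide +kernel) (by decide +kernel)
    ⟨_, _, ha, hb, pts_append a35 b35⟩ (by decide +kernel)

def a44 : Fin 5 → ZMod 44 := ![1, 5, 8, 33, 41]
def b44 : Fin 3 → ZMod 44 := ![42, 37, 9]

def z44 : Fin (2 * 3 + 2) → ZMod 44 := (Fin.append a44 b44 : Fin (5 + 3) → ZMod 44)

theorem exo44 : ExoP IsLef 44 23 := by
  have ha : IsPiece (pts a44) := piece_of_chk (s := 1) a44 (fun _ => 0) (fun _ => 11)
    [(![3, 0, 0, 0, 1], 1), (![1, 2, 0, 1, 0], 3), (![0, 0, 11, 0, 0], 1), (![0, 0, 0, 4, 0], 2),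
      (![1, 1, 0, 0, 2], 5)] (by decide +kernel)
  have hb : IsPiece (pts b44) := piece3 b44 (by decide +kernel)
  exact EX_exo 44 3 23 z44 (by decide +kernel) (by decide +kernel)
    ⟨_, _, ha, hb, pts_append a44 b44⟩ (by decide +kernel)

def a52 : Fin 5 → ZMod 52 := ![1, 17, 20, 29, 37]
def b52 : Fin 5 → ZMod 52 := ![46, 42, 33, 30, 5]

def z52 : Fin (2 * 4 + 2) → ZMod 52 := (Fin.append a52 b52 : Fin (5 + 5) → ZMod 52)

theorem exo52 : ExoP IsLef 52 27 := by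
  have ha : IsPiece (pts a52) := piece_of_chk (s := 1) a52 (fun _ => 0) (fun _ => 14)
    [(![1, 0, 0, 1, 2], 7), (![1, 3, 0, 0, 0], 4), (![3, 0, 1, 1, 0], 1), (![0, 1, 0, 3, 0], 2),
      (![0, 0, 13, 0, 0], 1)] (by decide +kernel)
  have hb : IsPiece (pts b52) := piece_of_chk (s := 1) b52 (fun _ => 0) (fun _ => 5)
    [(![5, 0, 0, 1, 0], 1), (![0, 3, 0, 1, 0], 1), (![0, 0, 3, 0, 1], 1), (![0, 0, 2, 3, 0], 1),
      (![0, 1, 0, 0, 2], 2)] (by decide +kernel)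
  exact EX_exo 52 4 27 z52 (by decide +kernel) (by decide +kernel)
    ⟨_, _, ha, hb, pts_append a52 b52⟩ (by decide +kernel)

def a68 : Fin 7 → ZMod 68 := ![7, 34, 48, 47, 35, 39, 62]
def b68 : Fin 7 → ZMod 68 := ![15, 34, 64, 23, 22, 43, 3]
def z68 : Fin (2 * 6 + 2) → ZMod 68 := (Fin.append a68 b68 : Fin (7 + 7) → ZMod 68)

theorem exo68 : ExoP IsLef 68 35 := by
  have ha : IsPiece (pts a68) := piece_of_chk (s := 2) a68 ![0, 0, 0, 0, 1, 1, 1] ![22, 4]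
    [(![3, 0, 0, 1, 0, 0, 0], 6), (![0, 2, 0, 0, 0, 0, 0], 11), (![0, 0, 17, 0, 0, 0, 0], 1),
      (![1, 0, 0, 2, 1, 0, 0], 4), (![0, 0, 1, 0, 0, 4, 0], 1), (![0, 0, 1, 2, 0, 0, 1], 4)]
    (by decide +kernel)
  have hb : IsPiece (pts b68) := piece_of_chk (s := 2) b68 ![0, 0, 0, 0, 1, 1, 1] ![22, 3]
    [(![3, 0, 0, 1, 0, 0, 0], 7), (![0, 2, 0, 0, 0, 0, 0], 11), (![0, 0, 17, 0, 0, 0, 0], 1),
      (![0, 0, 0, 2, 1, 0, 0], 3), (![1, 0, 2, 0, 0, 3, 0], 1), (![0, 0, 1, 3, 0, 0, 1], 3)]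
    (by decide +kernel)
  exact EX_exo 68 6 35 z68 (by decide +kernel) (by decide +kernel)
    ⟨_, _, ha, hb, pts_append a68 b68⟩ (by decide +kernel)

end Pool.Agent.helper76.UR
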