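import Pool.Agent.helper76.UR.EX

/-! # Project UR: exceptional classes of levels 51 and 57 -/

namespace Pool.Agent.helper76.UR

open Finset Pool.Agent.helper34.DH Pool.Agent.helper76.FV Pool.Agent.helper76.LP

lemma F_nat (D n : ℕ) (hD : 0 < D) : F ((n : ℚ) / D) = cl D (n : ZMod D) := by
  unfold cl
  refine F_congr ⟨(n / D : ℕ), ?_⟩
  rw [ZMod.val_natCast]
  have hD' : (D : ℚ) ≠ 0 := by exact_mod_cast hD.ne'
  have h := Nat.div_add_mod n D
  have h' : (n : ℚ) = D * (n / D : ℕ) + (n % D : ℕ) := by exact_mod_cast h.symm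
  rw [Int.cast_natCast]
  field_simp
  linarith

lemma cl_two_even (D j : ℕ) (hD : 0 < D) :
    cl (2 * D) ((2 * j : ℕ) : ZMod (2 * D)) = cl D (j : ZMod D) := by
  rw [← F_nat _ _ (by omega), ← F_nat _ _ hD]
  congr 1
  push_cast
  rw [mul_div_mul_left _ _ (by norm_num : (2 : ℚ) ≠ 0)]

lemma cl_two_odd (D n j : ℕ) (hD : 0 < D) (h : n + D = 2 * j) :
    cl (2 * D) (n : ZMod (2 * D)) = cl D (n : ZMod D) - cl D (j : ZMod D) + hh := by
  rw [← F_nat _ _ (by omega), ← F_nat _ _ hD, ← F_nat _ _ hD]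
  have hD' : (D : ℚ) ≠ 0 := by exact_mod_cast hD.ne'
  have h1 := dist_two ((n : ℚ) / (2 * D))
  have h' : (n : ℚ) + D = 2 * j := by exact_mod_cast h
  have e1 : (n : ℚ) / (2 * D) + 1 / 2 = (j : ℚ) / D := by
    field_simp
    linarith
  have e2 : 2 * ((n : ℚ) / (2 * D)) = (n : ℚ) / D := by field_simp
  rw [e1, e2] at h1
  push_cast
  rw [eq_sub_of_add_eq h1]
  abel

/-- difference of two vectors -/
def dif {D k l : ℕ} (a : Fin k → ZMod D) (b : Fin l → ZMod D) (x : ZMod D) : ℤ :=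
  cnt a x - cnt b x

theorem cls_dif {D k l : ℕ} [NeZero D] (a : Fin k → ZMod D) (b : Fin l → ZMod D) :
    cls D (dif a b) = ∑ i, cl D (a i) - ∑ i, cl D (b i) := by
  unfold LP.cls dif
  simp_rw [sub_smul]
  rw [Finset.sum_sub_distrib, sum_cnt_smul, sum_cnt_smul]

theorem hh_mem' {P : Multiset QZ → Prop} : hh ∈ EP P := AddSubgroup.subset_closure (Or.inr rfl)

def a51 : Fin 5 → ZMod 102 := ![1, 7, 51, 54, 91]
def b51 : Fin 5 → ZMod 102 := ![98, 75, 68, 57, 8]
def z51 : Fin (2 * 4 + 2) → ZMod 102 := (Fin.append a51 b51 : Fin (5 + 5) → ZMod 102)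
def c51 : Fin 9 → ZMod 51 := ![1, 7, 27, 91, 49, 75, 34, 57, 4]
def d51 : Fin 5 → ZMod 51 := ![26, 29, 71, 63, 54]

theorem cls51 : cls 102 (cnt z51) ∈ EP IsLef := by
  have ha : IsPiece (pts a51) := piece_of_chk (s := 1) a51 (fun _ => 0) (fun _ => 18)
    [(![4, 1, 0, 0, 1], 3), (![1, 3, 0, 0, 2], 5), (![0, 0, 2, 0, 0], 9), (![0, 0, 0, 17, 0], 1),
      (![1, 0, 0, 1, 5], 1)] (by decide +kernel)
  have hb : IsPiece (pts b51) := piece_of_chk (s := 1) b51 (fun _ => 0) (fun _ => 6)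
    [(![2, 0, 0, 0, 1], 3), (![0, 3, 0, 5, 0], 1), (![0, 0, 3, 0, 0], 2),
      (![0, 3, 0, 1, 3], 1)] (by decide +kernel)
  exact EX_cls 102 4 z51 (EX_tateM 102 _ z51 (by decide +kernel) (by decide +kernel))
    (Or.inr ⟨_, _, ha, hb, pts_append a51 b51⟩)

theorem exo51 : ExoP IsLef 51 35 := by
  refine ⟨dif c51 d51, XO_tateF 51 _ (by decide +kernel), by decide +kernel, ?_⟩
  have h0 := cls51
  have h1 : cls 102 (cnt z51) = _ := sum_cnt_smul z51 (cl 102)
  have h2 : ∑ i, cl 102 (z51 i) = cl 102 1 + cl 102 7 + cl 102 51 + cl 102 54 + cl 102 91 +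
      cl 102 98 + cl 102 75 + cl 102 68 + cl 102 57 + cl 102 8 := by
    rw [show (∑ i, cl 102 (z51 i)) = ∑ i : Fin (5 + 5), cl 102 (Fin.append a51 b51 i) from rfl,
      Fin.sum_univ_add]
    simp only [Fin.append_left, Fin.append_right, Fin.sum_univ_five]
    simp only [a51, b51]
    simp only [Matrix.cons_val]
    abel
  have h3 : cls 51 (dif c51 d51) = cl 51 1 + cl 51 7 + cl 51 27 + cl 51 91 + cl 51 49 +
      cl 51 75 + cl 51 34 + cl 51 57 + cl 51 4 -
      (cl 51 26 + cl 51 29 + cl 51 71 + cl 51 63 + cl 51 54) := by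
    rw [cls_dif, Fin.sum_univ_five]
    simp only [Fin.sum_univ_succ, c51, d51]
    simp
    abel
  have k1 : cl 102 1 = cl 51 1 - cl 51 26 + hh := by
    simpa using cl_two_odd 51 1 26 (by norm_num) (by norm_num)
  have k7 : cl 102 7 = cl 51 7 - cl 51 29 + hh := by
    simpa using cl_two_odd 51 7 29 (by norm_num) (by norm_num)
  have k51 : cl 102 51 = cl 51 51 - cl 51 51 + hh := by
    simpa using cl_two_odd 51 51 51 (by norm_num) (by norm_num)
  have k91 : cl 102 91 = cl 51 91 - cl 51 71 + hh := by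
    simpa using cl_two_odd 51 91 71 (by norm_num) (by norm_num)
  have k75 : cl 102 75 = cl 51 75 - cl 51 63 + hh := by
    simpa using cl_two_odd 51 75 63 (by norm_num) (by norm_num)
  have k57 : cl 102 57 = cl 51 57 - cl 51 54 + hh := by
    simpa using cl_two_odd 51 57 54 (by norm_num) (by norm_num)
  have k54 : cl 102 54 = cl 51 27 := by simpa using cl_two_even 51 27 (by norm_num)
  have k98 : cl 102 98 = cl 51 49 := by simpa using cl_two_even 51 49 (by norm_num)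
  have k68 : cl 102 68 = cl 51 34 := by simpa using cl_two_even 51 34 (by norm_num)
  have k8 : cl 102 8 = cl 51 4 := by simpa using cl_two_even 51 4 (by norm_num)
  rw [h1, h2, k1, k7, k51, k91, k75, k57, k54, k98, k68, k8] at h0
  have h5 : cls 51 (dif c51 d51) = (cl 51 1 - cl 51 26 + hh + (cl 51 7 - cl 51 29 + hh) +
      (cl 51 51 - cl 51 51 + hh) + cl 51 27 + (cl 51 91 - cl 51 71 + hh) +
      cl 51 49 + (cl 51 75 - cl 51 63 + hh) + cl 51 34 + (cl 51 57 - cl 51 54 + hh) + cl 51 4)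
      - (6 : ℤ) • hh := by
    rw [h3]; abel
  rw [h5]
  exact (EP IsLef).sub_mem h0 ((EP IsLef).zsmul_mem hh_mem' 6)

def a57 : Fin 5 → ZMod 114 := ![1, 43, 57, 61, 66]
def b57 : Fin 5 → ZMod 114 := ![99, 92, 81, 44, 26]
def z57 : Fin (2 * 4 + 2) → ZMod 114 := (Fin.append a57 b57 : Fin (5 + 5) → ZMod 114)
def c57 : Fin 9 → ZMod 57 := ![1, 43, 61, 33, 99, 46, 81, 22, 13]
def d57 : Fin 5 → ZMod 57 := ![29, 50, 59, 78, 69]

theorem cls57 : cls 114 (cnt z57) ∈ EP IsLef := by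
  have ha : IsPiece (pts a57) := piece_of_chk (s := 1) a57 (fun _ => 0) (fun _ => 24)
    [(![5, 1, 0, 0, 1], 2), (![0, 5, 0, 1, 1], 3), (![0, 0, 2, 0, 0], 12), (![2, 1, 0, 3, 0], 7),
      (![0, 0, 0, 0, 19], 1)] (by decide +kernel)
  have hb : IsPiece (pts b57) := piece_of_chk (s := 1) b57 (fun _ => 0) (fun _ => 3)
    [(![0, 2, 0, 1, 0], 1), (![1, 0, 3, 0, 0], 1), (![0, 0, 0, 2, 1], 1),
      (![2, 1, 0, 0, 2], 1)] (by decide +kernel)
  exact EX_cls 114 4 z57 (EX_tateM 114 _ z57 (by decide +kernel) (by decide +kernel))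
    (Or.inr ⟨_, _, ha, hb, pts_append a57 b57⟩)

theorem exo57 : ExoP IsLef 57 20 := by
  refine ⟨dif c57 d57, XO_tateF 57 _ (by decide +kernel), by decide +kernel, ?_⟩
  have h0 := cls57
  have h1 : cls 114 (cnt z57) = _ := sum_cnt_smul z57 (cl 114)
  have h2 : ∑ i, cl 114 (z57 i) = cl 114 1 + cl 114 43 + cl 114 57 + cl 114 61 + cl 114 66 +
      cl 114 99 + cl 114 92 + cl 114 81 + cl 114 44 + cl 114 26 := by
    rw [show (∑ i, cl 114 (z57 i)) = ∑ i : Fin (5 + 5), cl 114 (Fin.append a57 b57 i) from rfl,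
      Fin.sum_univ_add]
    simp only [Fin.append_left, Fin.append_right, Fin.sum_univ_five]
    simp only [a57, b57]
    simp only [Matrix.cons_val]
    abel
  have h3 : cls 57 (dif c57 d57) = cl 57 1 + cl 57 43 + cl 57 61 + cl 57 33 + cl 57 99 +
      cl 57 46 + cl 57 81 + cl 57 22 + cl 57 13 -
      (cl 57 29 + cl 57 50 + cl 57 59 + cl 57 78 + cl 57 69) := by
    rw [cls_dif, Fin.sum_univ_five]
    simp only [Fin.sum_univ_succ, c57, d57]
    simp
    abel
  have k1 : cl 114 1 = cl 57 1 - cl 57 29 + hh := by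
    simpa using cl_two_odd 57 1 29 (by norm_num) (by norm_num)
  have k43 : cl 114 43 = cl 57 43 - cl 57 50 + hh := by
    simpa using cl_two_odd 57 43 50 (by norm_num) (by norm_num)
  have k57 : cl 114 57 = cl 57 57 - cl 57 57 + hh := by
    simpa using cl_two_odd 57 57 57 (by norm_num) (by norm_num)
  have k61 : cl 114 61 = cl 57 61 - cl 57 59 + hh := by
    simpa using cl_two_odd 57 61 59 (by norm_num) (by norm_num)
  have k99 : cl 114 99 = cl 57 99 - cl 57 78 + hh := by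
    simpa using cl_two_odd 57 99 78 (by norm_num) (by norm_num)
  have k81 : cl 114 81 = cl 57 81 - cl 57 69 + hh := by
    simpa using cl_two_odd 57 81 69 (by norm_num) (by norm_num)
  have k66 : cl 114 66 = cl 57 33 := by simpa using cl_two_even 57 33 (by norm_num)
  have k92 : cl 114 92 = cl 57 46 := by simpa using cl_two_even 57 46 (by norm_num)
  have k44 : cl 114 44 = cl 57 22 := by simpa using cl_two_even 57 22 (by norm_num)
  have k26 : cl 114 26 = cl 57 13 := by simpa using cl_two_even 57 13 (by norm_num)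
  rw [h1, h2, k1, k43, k57, k61, k99, k81, k66, k92, k44, k26] at h0
  have h5 : cls 57 (dif c57 d57) = (cl 57 1 - cl 57 29 + hh + (cl 57 43 - cl 57 50 + hh) +
      (cl 57 57 - cl 57 57 + hh) + (cl 57 61 - cl 57 59 + hh) + cl 57 33 +
      (cl 57 99 - cl 57 78 + hh) + cl 57 46 + (cl 57 81 - cl 57 69 + hh) + cl 57 22 + cl 57 13)
      - (6 : ℤ) • hh := by
    rw [h3]; abel
  rw [h5]
  exact (EP IsLef).sub_mem h0 ((EP IsLef).zsmul_mem hh_mem' 6)

end Pool.Agent.helper76.UR
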