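import Pool.Agent.helper76.UR.Ind
import Pool.Agent.helper34.XL.CMB

/-! # Project UR: final theorem -/

namespace Pool.Agent.helper76.UR

open Finset Pool.Agent.helper34.DH Pool.Agent.helper76.FV Pool.Agent.helper76.LP
open Pool.Agent.helper34.EL (red_level prime_le_of_dvd_level level)

/-- good products -/
def GP : Finset ℕ := {12, 15, 20, 21, 28, 33, 35, 39, 44, 51, 52, 57, 68}

/-- all pairs of elements of `Λ` have a good product, and not all of `3, 4, 5, 7` divide `m` -/
def Good3 (m : ℕ) : Prop :=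
  (∀ x y, Lam m x → Lam m y → x < y → x * y ∈ GP) ∧ ¬ 420 ∣ m

lemma fix_lef (D p q : ℕ) [NeZero D] (hpp : p.Prime) (hqp : q.Prime) (hpd : p ∣ D) (hqd : q ∣ D)
    (hpq : p ≠ q) (hD : D.primeFactors = {p, q})
    (hc : D.totient = (if p ^ 2 ∣ D then p else p - 1) * (if q ^ 2 ∣ D then q else q - 1))
    (ν : (ZMod D)ˣ)
    (h1 : ZMod.unitsMap (Nat.div_dvd_of_dvd hpd) ν = 1)
    (h2 : ZMod.unitsMap (Nat.div_dvd_of_dvd hqd) (-ν) = 1) (hν : ν * ν = 1)
    (hE : ExoP IsLef D (ν : ZMod D)) : FixP IsLef D := by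
  refine fixP_of_exo D p q hpq hD ?_ ν ?_ ?_ hν hE
  · rw [card_Gam D p hpp hpd, card_Gam D q hqp hqd]
    exact hc
  · unfold Gam
    rw [dif_pos hpd, MonoidHom.mem_ker]
    exact h1
  · unfold Gam
    rw [dif_pos hqd, MonoidHom.mem_ker]
    exact h2

lemma f12 : FixP IsLef 12 :=
  fix_lef 12 2 3 (by norm_num) (by norm_num) (by norm_num) (by norm_num) (by norm_num)
    (by decide +kernel) (by decide +kernel) ⟨7, 7, by decide, by decide⟩ (by decide +kernel)
    (by decide +kernel) (by decide) (exo_lef_of_exo exo12)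

lemma f15 : FixP IsLef 15 :=
  fix_lef 15 3 5 (by norm_num) (by norm_num) (by norm_num) (by norm_num) (by norm_num)
    (by decide +kernel) (by decide +kernel) ⟨11, 11, by decide, by decide⟩ (by decide +kernel)
    (by decide +kernel) (by decide) (exo_lef_of_exo exo15)

lemma f20 : FixP IsLef 20 :=
  fix_lef 20 2 5 (by norm_num) (by norm_num) (by norm_num) (by norm_num) (by norm_num)
    (by decide +kernel) (by decide +kernel) ⟨11, 11, by decide, by decide⟩ (by decide +kernel)
    (by decide +kernel) (by decide) (exo_lef_of_exo exo20)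

lemma f21 : FixP IsLef 21 :=
  fix_lef 21 3 7 (by norm_num) (by norm_num) (by norm_num) (by norm_num) (by norm_num)
    (by decide +kernel) (by decide +kernel) ⟨8, 8, by decide, by decide⟩ (by decide +kernel)
    (by decide +kernel) (by decide) (exo_lef_of_exo exo21)

lemma f28 : FixP IsLef 28 :=
  fix_lef 28 2 7 (by norm_num) (by norm_num) (by norm_num) (by norm_num) (by norm_num)
    (by decide +kernel) (by decide +kernel) ⟨15, 15, by decide, by decide⟩ (by decide +kernel)
    (by decide +kernel) (by decide) (exo_lef_of_exo exo28)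

lemma f33 : FixP IsLef 33 :=
  fix_lef 33 3 11 (by norm_num) (by norm_num) (by norm_num) (by norm_num) (by norm_num)
    (by decide +kernel) (by decide +kernel) ⟨23, 23, by decide, by decide⟩ (by decide +kernel)
    (by decide +kernel) (by decide) (exo_lef_of_exo exo33)

lemma f39 : FixP IsLef 39 :=
  fix_lef 39 3 13 (by norm_num) (by norm_num) (by norm_num) (by norm_num) (by norm_num)
    (by decide +kernel) (by decide +kernel) ⟨14, 14, by decide, by decide⟩ (by decide +kernel)
    (by decide +kernel) (by decide) (exo_lef_of_exo exo39)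

lemma f35 : FixP IsLef 35 :=
  fix_lef 35 5 7 (by norm_num) (by norm_num) (by norm_num) (by norm_num) (by norm_num)
    (by decide +kernel) (by decide +kernel) ⟨29, 29, by decide, by decide⟩ (by decide +kernel)
    (by decide +kernel) (by decide) exo35

lemma f44 : FixP IsLef 44 :=
  fix_lef 44 2 11 (by norm_num) (by norm_num) (by norm_num) (by norm_num) (by norm_num)
    (by decide +kernel) (by decide +kernel) ⟨23, 23, by decide, by decide⟩ (by decide +kernel)
    (by decide +kernel) (by decide) exo44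

lemma f52 : FixP IsLef 52 :=
  fix_lef 52 2 13 (by norm_num) (by norm_num) (by norm_num) (by norm_num) (by norm_num)
    (by decide +kernel) (by decide +kernel) ⟨27, 27, by decide, by decide⟩ (by decide +kernel)
    (by decide +kernel) (by decide) exo52

lemma f51 : FixP IsLef 51 :=
  fix_lef 51 3 17 (by norm_num) (by norm_num) (by norm_num) (by norm_num) (by norm_num)
    (by decide +kernel) (by decide +kernel) ⟨35, 35, by decide, by decide⟩ (by decide +kernel)
    (by decide +kernel) (by decide) exo51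

lemma f57 : FixP IsLef 57 :=
  fix_lef 57 3 19 (by norm_num) (by norm_num) (by norm_num) (by norm_num) (by norm_num)
    (by decide +kernel) (by decide +kernel) ⟨20, 20, by decide, by decide⟩ (by decide +kernel)
    (by decide +kernel) (by decide) exo57

lemma f68 : FixP IsLef 68 :=
  fix_lef 68 2 17 (by norm_num) (by norm_num) (by norm_num) (by norm_num) (by norm_num)
    (by decide +kernel) (by decide +kernel) ⟨35, 35, by decide, by decide⟩ (by decide +kernel)
    (by decide +kernel) (by decide) exo68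

lemma fixP_of_mem (D : ℕ) [NeZero D] (h : D ∈ GP) : FixP IsLef D := by
  unfold GP at h
  simp only [Finset.mem_insert, Finset.mem_singleton] at h
  rcases h with h | h | h | h | h | h | h | h | h | h | h | h | h <;> subst h
  · exact f12
  · exact f15
  · exact f20
  · exact f21
  · exact f28
  · exact f33
  · exact f35
  · exact f39
  · exact f44
  · exact f51
  · exact f52
  · exact f57
  · exact f68

lemma pair_memG (m : ℕ) (hm : Good3 m) {x y : ℕ} (hx : Lam m x) (hy : Lam m y) (hxy : x ≠ y) :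
    x * y ∈ GP := by
  rcases Nat.lt_or_gt_of_ne hxy with h | h
  · exact hm.1 x y hx hy h
  · rw [mul_comm]; exact hm.1 y x hy hx h

/-- at most three primes -/
lemma card_le_three3 (m D : ℕ) (hm : Good3 m) (hD : D ∣ m) (hD4 : D % 4 ≠ 2) :
    D.primeFactors.card ≤ 3 := by
  by_contra hc
  push Not at hc
  obtain ⟨s, hs, hcard⟩ := Finset.exists_subset_card_eq (show 4 ≤ D.primeFactors.card by omega)
  obtain ⟨p, q, r, t, hpq, hpr, hpt, hqr, hqt, hrt, rfl⟩ := Finset.card_eq_four.1 hcard
  have hmem : ∀ z ∈ ({p, q, r, t} : Finset ℕ), Lam m (lp z) ∧ z.Prime := fun z hz =>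
    ⟨lam_lp m D z hD hD4 (hs hz), Nat.prime_of_mem_primeFactors (hs hz)⟩
  have hp := hmem p (by simp)
  have hq := hmem q (by simp)
  have hr := hmem r (by simp)
  have ht := hmem t (by simp)
  have hne : ∀ {a b : ℕ}, a.Prime → b.Prime → a ≠ b → lp a ≠ lp b :=
    fun ha hb hab h => hab (lp_inj ha hb h)
  have h1 := pair_memG m hm hp.1 hq.1 (hne hp.2 hq.2 hpq)
  have h2 := pair_memG m hm hp.1 hr.1 (hne hp.2 hr.2 hpr)
  have h3 := pair_memG m hm hp.1 ht.1 (hne hp.2 ht.2 hpt)
  have h4 := pair_memG m hm hq.1 hr.1 (hne hq.2 hr.2 hqr)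
  have h5 := pair_memG m hm hq.1 ht.1 (hne hq.2 ht.2 hqt)
  have h6 := pair_memG m hm hr.1 ht.1 (hne hr.2 ht.2 hrt)
  have hge : ∀ z, z.Prime → 3 ≤ lp z := by
    intro z hz
    unfold LP.lp
    have := hz.two_le
    split_ifs with h
    · norm_num
    · omega
  have hle : ∀ {x y : ℕ}, 3 ≤ x → x * y ∈ GP → y ≤ 22 := by
    intro x y hx hxy
    unfold GP at hxy
    simp only [Finset.mem_insert, Finset.mem_singleton] at hxy
    by_contra hy
    push Not at hy
    have : 3 * 23 ≤ x * y := Nat.mul_le_mul hx hy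
    omega
  have b1 := hle (hge q hq.2) (by rw [mul_comm]; exact h1)
  have b2 := hle (hge p hp.2) h1
  have b3 := hle (hge p hp.2) h2
  have b4 := hle (hge p hp.2) h3
  have g1 := hge p hp.2
  have g2 := hge q hq.2
  have g3 := hge r hr.2
  have g4 := hge t ht.2
  have hlem : ∀ a ∈ Finset.Icc 3 22, ∀ b ∈ Finset.Icc 3 22, a * b ∈ GP →
      ∀ c ∈ Finset.Icc 3 22, a * c ∈ GP → b * c ∈ GP → ∀ d ∈ Finset.Icc 3 22,
      a * d ∈ GP → b * d ∈ GP → c * d ∈ GP →
      (a = 3 ∨ b = 3 ∨ c = 3 ∨ d = 3) ∧ (a = 4 ∨ b = 4 ∨ c = 4 ∨ d = 4) ∧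
      (a = 5 ∨ b = 5 ∨ c = 5 ∨ d = 5) ∧ (a = 7 ∨ b = 7 ∨ c = 7 ∨ d = 7) := by decide +kernel
  have hfin := hlem _ (Finset.mem_Icc.2 ⟨g1, b1⟩) _ (Finset.mem_Icc.2 ⟨g2, b2⟩) h1 _
    (Finset.mem_Icc.2 ⟨g3, b3⟩) h2 h4 _ (Finset.mem_Icc.2 ⟨g4, b4⟩) h3 h5 h6
  have hdv : ∀ w, (lp p = w ∨ lp q = w ∨ lp r = w ∨ lp t = w) → w ∣ m := by
    rintro w (h | h | h | h)
    · exact h ▸ hp.1.1
    · exact h ▸ hq.1.1
    · exact h ▸ hr.1.1
    · exact h ▸ ht.1.1
  obtain ⟨k3, k4, k5, k7⟩ := hfin
  have d3 := hdv 3 k3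
  have d4 := hdv 4 k4
  have d5 := hdv 5 k5
  have d7 := hdv 7 k7
  exact hm.2 (by omega)

theorem goodFor_of_good3 (m : ℕ) (hm : Good3 m) : GoodFor IsLef m := by
  intro D _ hD hD4 hs
  have hcard := card_le_three3 m D hm hD hD4
  rcases Nat.lt_or_ge D.primeFactors.card 2 with h2 | h2
  · left; omega
  · rcases Nat.lt_or_ge D.primeFactors.card 3 with h3 | h3
    · right; right
      obtain ⟨p, q, hpq, hpqD⟩ := Finset.card_eq_two.1 (show D.primeFactors.card = 2 by omega)
      have hprod := (eq_prod_lam D hD4 hs).1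
      have hp : p ∈ D.primeFactors := by rw [hpqD]; simp
      have hq : q ∈ D.primeFactors := by rw [hpqD]; simp
      have hDpq : D = lp p * lp q := by
        rw [hpqD, Finset.prod_pair hpq] at hprod
        exact hprod
      have hmem := pair_memG m hm (lam_lp m D p hD hD4 hp) (lam_lp m D q hD hD4 hq)
        (fun h => hpq (lp_inj (Nat.prime_of_mem_primeFactors hp)
          (Nat.prime_of_mem_primeFactors hq) h))
      rw [← hDpq] at hmem
      exact fixP_of_mem D hmem
    · right; left; omega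

theorem CV_RP_of_std {P : Multiset QZ → Prop} {s t : Multiset QZ} (h1 : StdEquiv s t)
    (h2 : EquivMod P t 0) : EquivMod P s 0 := by
  rw [equivMod_iff] at h2 ⊢
  rw [stdEquiv_iff] at h1
  have h3 := (RP P).add_mem (CV_R_le h1) h2
  have h4 : helper34.DH.emb s - helper34.DH.emb 0 =
      (helper34.DH.emb s - helper34.DH.emb t) + (helper34.DH.emb t - helper34.DH.emb 0) := by abel
  rw [h4]
  exact h3

/-- the theorem for products of Fermat varieties with `2 d` coordinates -/
theorem tate_lef (d m : ℕ) (hm : 0 < m)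
    (hg : ∀ x y, Lam m x → Lam m y → x < y → y ≤ 12 * d + 1 → x * y ∈ GP) (h420 : 0 < d → ¬ 420 ∣ m)
    {s : ℕ} (π : Fin (2 * d) → Fin s) (a : Fin (2 * d) → ZMod m) :
    IsTateChar m π a ↔ (∀ i, a i ≠ 0) ∧ BlockZero π a ∧ LefEquiv (pts a) 0 := by
  rw [isTateChar_iff m hm]
  constructor
  · rintro ⟨hb, hT⟩
    refine ⟨hT.1, hb, ?_⟩
    obtain ⟨N, e, z, hN, hNl, hNm, hed, hz, -, hst⟩ := red_level m hm d a hT
    refine CV_RP_of_std hst ?_
    have heven : ∀ w, w ∣ Nat.lcm 2 m → 4 ∣ w → w ∣ m := by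
      intro w hw h4
      rcases Nat.even_or_odd m with he | ho
      · have : Nat.lcm 2 m = m := Nat.lcm_eq_right (even_iff_two_dvd.1 he)
        rwa [this] at hw
      · exfalso
        have h2 : Nat.lcm 2 m ∣ 2 * m := Nat.lcm_dvd_mul 2 m
        have h3 : 2 * 2 ∣ 2 * m := (h4.trans hw).trans h2
        have h4 : 2 ∣ m := (Nat.mul_dvd_mul_iff_left (by norm_num)).1 h3
        exact (Nat.not_even_iff_odd.2 ho) (even_iff_two_dvd.2 h4)
    have hl0 : level 0 = 1 := by
      unfold level
      have h : (range (12 * 0 + 2)).filter Nat.Prime = ∅ := by decide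
      rw [h, prod_empty]
    have hgN : Good3 N := by
      constructor
      · intro x y hx hy hxy
        have hlam : ∀ w, Lam N w → Lam m w := by
          rintro w ⟨hw1, hw2⟩
          have h1 : w ∣ Nat.lcm 2 m := hw1.trans hNm
          refine ⟨?_, hw2⟩
          rcases hw2 with rfl | ⟨hp, ho⟩
          · exact heven 4 h1 dvd_rfl
          · have h2 : w ∣ 2 * m := h1.trans (Nat.lcm_dvd_mul 2 m)
            rcases (hp.dvd_mul).1 h2 with h3 | h3
            · rw [Nat.prime_dvd_prime_iff_eq hp Nat.prime_two] at h3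
              subst h3
              exact absurd ho (by decide)
            · exact h3
        have hbound : ∀ w, Lam N w → w ≤ 12 * d + 1 := by
          rintro w ⟨hw1, hw2⟩
          rcases hw2 with rfl | ⟨hp, -⟩
          · have h1 : 4 ∣ level d := hw1.trans hNl
            by_contra h2
            have hd0 : d = 0 := by omega
            subst hd0
            rw [hl0] at h1
            exact absurd (Nat.le_of_dvd one_pos h1) (by norm_num)
          · exact prime_le_of_dvd_level d w hp (hw1.trans hNl)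
        exact hg x y (hlam x hx) (hlam y hy) hxy (hbound y hy)
      · intro h
        rcases Nat.eq_zero_or_pos d with hd0 | hd0
        · subst hd0
          rw [hl0] at hNl
          have h1 := Nat.le_of_dvd one_pos (h.trans hNl)
          omega
        · exact h420 hd0 (heven 420 (h.trans hNm) (by norm_num))
    exact ((tate_gen tateGen_lef N hN (goodFor_of_good3 N hgN) e z).1 hz).2
  · rintro ⟨h0, hb, hs⟩
    exact ⟨hb, tateM_of_equivMod tateGen_lef m hm _ a h0 hs⟩

end Pool.Agent.helper76.UR
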