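import Pool.Agent.helper76.UR.CV
import Pool.Agent.helper6.FQ.XO

/-! # Project UR: certificates for ruled multisets, exceptional classes -/

namespace Pool.Agent.helper76.UR

open Finset Pool.Agent.helper34.DH Pool.Agent.helper76.FV Pool.Agent.helper76.LP

/-- the point `x / m` -/
noncomputable def pt {m : ℕ} (x : ZMod m) : QZ := (((x.val : ℚ) / m : ℚ) : QZ)

lemma pts_eq_sum {m k : ℕ} (a : Fin k → ZMod m) : pts a = ∑ i, {pt (a i)} := by
  unfold pts pt
  rw [Finset.sum]
  generalize (Finset.univ : Finset (Fin k)).val = s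
  induction s using Multiset.induction_on with
  | empty => simp
  | cons i s ih => rw [Multiset.map_cons, Multiset.map_cons, Multiset.sum_cons, ← ih,
      Multiset.singleton_add]

lemma pts_append {m k l : ℕ} (a : Fin k → ZMod m) (b : Fin l → ZMod m) :
    pts (Fin.append a b) = pts a + pts b := by
  rw [pts_eq_sum, pts_eq_sum, pts_eq_sum, Fin.sum_univ_add]
  simp

lemma card_pts {m k : ℕ} (a : Fin k → ZMod m) : Multiset.card (pts a) = k := by
  unfold pts; rw [Multiset.card_map]; simp

/-- integer combinations of points -/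
lemma sum_smul_pt {m k : ℕ} [NeZero m] (a : Fin k → ZMod m) (n : Fin k → ℕ)
    (h : ∑ i, (n i : ZMod m) * a i = 0) : ∑ i, n i • pt (a i) = 0 := by
  have hm : (m : ℚ) ≠ 0 := by exact_mod_cast NeZero.ne m
  have h1 : ((∑ i, n i * (a i).val : ℕ) : ZMod m) = 0 := by
    push_cast
    simp_rw [ZMod.natCast_zmod_val]
    exact h
  rw [ZMod.natCast_eq_zero_iff] at h1
  obtain ⟨q, hq⟩ := h1
  have h2 : ∑ i, n i • pt (a i) = (((∑ i, (n i : ℚ) * (((a i).val : ℚ) / m) : ℚ)) : QZ) := by
    unfold pt
    change _ = QuotientAddGroup.mk' (AddSubgroup.zmultiples (1 : ℚ)) _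
    rw [_root_.map_sum]
    refine Finset.sum_congr rfl fun i _ => ?_
    rw [← AddCircle.coe_nsmul, nsmul_eq_mul]
    rfl
  have h3 : (∑ i, (n i : ℚ) * (((a i).val : ℚ) / m) : ℚ) = q := by
    have h4 : (∑ i, (n i : ℚ) * (((a i).val : ℚ) / m) : ℚ) =
        (((∑ i, n i * (a i).val : ℕ) : ℚ)) / m := by
      push_cast
      rw [Finset.sum_div]
      exact Finset.sum_congr rfl fun i _ => by ring
    rw [h4, hq]
    push_cast
    field_simp
  rw [h2, h3, coe_eq_zero_iff]
  exact_mod_cast Int.fract_natCast q

lemma sum_pts {m k : ℕ} [NeZero m] (a : Fin k → ZMod m) (h : ∑ i, a i = 0) :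
    (pts a).sum = 0 := by
  have h1 := sum_smul_pt a (fun _ => 1) (by simpa using h)
  rw [pts_eq_sum]
  rw [← Multiset.coe_sumAddMonoidHom, map_sum]
  simpa using h1

/-- the block `j` of `a` -/
noncomputable def blk {m k s : ℕ} (a : Fin k → ZMod m) (β : Fin k → Fin s) (j : Fin s) :
    Multiset QZ := ∑ i ∈ univ.filter (fun i => β i = j), {pt (a i)}

/-- the system of the blocks of `a` -/
noncomputable def blks {m k s : ℕ} (a : Fin k → ZMod m) (β : Fin k → Fin s) :
    Multiset (Multiset QZ) := ∑ j, {blk a β j}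

lemma blks_sum {m k s : ℕ} (a : Fin k → ZMod m) (β : Fin k → Fin s) :
    (blks a β).sum = pts a := by
  unfold blks blk
  rw [← Multiset.coe_sumAddMonoidHom, _root_.map_sum, pts_eq_sum,
    ← Finset.sum_fiberwise (Finset.univ : Finset (Fin k)) β]
  refine Finset.sum_congr rfl fun j _ => ?_
  simp

lemma card_blks {m k s : ℕ} (a : Fin k → ZMod m) (β : Fin k → Fin s) :
    Multiset.card (blks a β) = s := by
  unfold blks
  simp [Multiset.card_sum]

lemma mem_blks {m k s : ℕ} (a : Fin k → ZMod m) (β : Fin k → Fin s) (b : Multiset QZ)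
    (h : b ∈ blks a β) : ∃ j, b = blk a β j := by
  unfold blks at h
  rw [Multiset.mem_sum] at h
  obtain ⟨j, -, hj⟩ := h
  exact ⟨j, Multiset.mem_singleton.1 hj⟩

lemma card_blk {m k s : ℕ} (a : Fin k → ZMod m) (β : Fin k → Fin s) (j : Fin s) :
    Multiset.card (blk a β j) = (univ.filter (fun i => β i = j)).card := by
  unfold blk
  simp [Multiset.card_sum]

lemma sum_blk {m k s : ℕ} [NeZero m] (a : Fin k → ZMod m) (β : Fin k → Fin s) (j : Fin s)
    (h : ∑ i ∈ univ.filter (fun i => β i = j), a i = 0) : (blk a β j).sum = 0 := by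
  have h1 := sum_smul_pt a (fun i => if β i = j then 1 else 0) (by
    rw [Finset.sum_filter] at h
    rw [← h]
    refine Finset.sum_congr rfl fun i _ => ?_
    split_ifs <;> simp)
  unfold blk
  rw [← Multiset.coe_sumAddMonoidHom, _root_.map_sum, Finset.sum_filter]
  refine Eq.trans (Finset.sum_congr rfl fun i _ => ?_) h1
  split_ifs <;> simp

/-- certificate for ruled systems -/
theorem ruled_of_cert {m k s : ℕ} [NeZero m] (a : Fin k → ZMod m) (β : Fin k → Fin s)
    (N : Fin s → ℕ) (rows : List ((Fin k → ℕ) × ℕ))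
    (h1 : ∀ r ∈ rows, (∃ i, r.1 i ≠ 0) ∧ ∑ i, ((r.1 i : ℕ) : ZMod m) * a i = 0)
    (h2 : ∀ i, (rows.map (fun r => r.2 * r.1 i)).sum ≤ N (β i))
    (h3 : ∑ j, N j < (rows.map (fun r => r.2)).sum) : Ruled (blks a β) := by
  classical
  -- the multiset attached to a row
  set ms : (Fin k → ℕ) → Multiset QZ := fun n => ∑ i, n i • {pt (a i)} with hms
  refine ⟨∑ j, Multiset.replicate (N j) (blk a β j),
    (rows.map (fun r => Multiset.replicate r.2 (ms r.1))).sum, ?_, ?_, ?_, ?_⟩
  · intro b hb
    rw [Multiset.mem_sum] at hb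
    obtain ⟨j, -, hj⟩ := hb
    rw [Multiset.eq_of_mem_replicate hj]
    unfold blks
    rw [Multiset.mem_sum]
    exact ⟨j, mem_univ j, Multiset.mem_singleton_self _⟩
  · intro s hs
    have hs' : ∃ r ∈ rows, s ∈ Multiset.replicate r.2 (ms r.1) := by
      clear h1 h2 h3
      induction rows with
      | nil => simp at hs
      | cons r rows ih =>
        rw [List.map_cons, List.sum_cons, Multiset.mem_add] at hs
        rcases hs with hs | hs
        · exact ⟨r, by simp, hs⟩
        · obtain ⟨r', h, h'⟩ := ih hs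
          exact ⟨r', by simp [h], h'⟩
    obtain ⟨r, hr, hsr⟩ := hs'
    rw [Multiset.eq_of_mem_replicate hsr]
    obtain ⟨⟨i, hi⟩, h⟩ := h1 r hr
    constructor
    · intro h0
      have hc := congrArg Multiset.card h0
      rw [hms] at hc
      simp only [Multiset.card_sum, Multiset.card_nsmul, Multiset.card_singleton, mul_one,
        Multiset.card_zero] at hc
      rw [Finset.sum_eq_zero_iff] at hc
      exact hi (hc i (mem_univ i))
    · rw [hms, ← Multiset.coe_sumAddMonoidHom]
      simp only [map_sum, map_nsmul]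
      simpa using sum_smul_pt a r.1 h
  · have h4 : (rows.map (fun r => Multiset.replicate r.2 (ms r.1))).sum.sum =
        ∑ i, (rows.map (fun r => r.2 * r.1 i)).sum • {pt (a i)} := by
      clear h1 h2 h3
      induction rows with
      | nil => simp
      | cons r rows ih =>
        rw [List.map_cons, List.sum_cons, Multiset.sum_add, ih, Multiset.sum_replicate]
        simp only [List.map_cons, List.sum_cons, add_smul]
        rw [Finset.sum_add_distrib, hms, Finset.smul_sum]
        simp only [smul_smul]
    have h5 : (∑ j, Multiset.replicate (N j) (blk a β j)).sum =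
        ∑ i, N (β i) • {pt (a i)} := by
      rw [← Multiset.coe_sumAddMonoidHom, _root_.map_sum,
        ← Finset.sum_fiberwise (Finset.univ : Finset (Fin k)) β]
      refine Finset.sum_congr rfl fun j _ => ?_
      rw [Multiset.coe_sumAddMonoidHom, Multiset.sum_replicate]
      unfold blk
      rw [Finset.smul_sum]
      refine Finset.sum_congr rfl fun i hi => ?_
      rw [(Finset.mem_filter.1 hi).2]
    rw [h4, h5]
    refine Finset.sum_le_sum fun i _ => ?_
    exact nsmul_le_nsmul_left (by simp) (h2 i)
  · have h5 : Multiset.card (rows.map (fun r => Multiset.replicate r.2 (ms r.1))).sum =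
        (rows.map (fun r => r.2)).sum := by
      clear h1 h2 h3
      induction rows with
      | nil => simp
      | cons r rows ih =>
        rw [List.map_cons, List.sum_cons, Multiset.card_add, ih, Multiset.card_replicate]
        simp
    rw [h5, Multiset.card_sum]
    simpa using h3

end Pool.Agent.helper76.UR
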